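import Pool.Agent.R766.FV.Four

/-!
# At least four favorite one-side sites of simple random walk, infinitely often

Almost surely there are infinitely many times at which at least four sites are favorite one-side
sites of simple random walk.

Let `A` be the largest number of outward crossings of an edge of the positive half-line and `B` the
same for the negative half-line. Suppose that `B < A` at some time, that later `A < B`, and that
until then the two edges at the origin have been crossed less often than the leading edges. At the
time when `B` reaches `A` there are two favorite sites at the leading edge on the positive side and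
one at the leading edge on the negative side. Either the walk returns through that edge, which makes
its other endpoint favorite, or it makes another site further away favorite before. In both cases
there are four favorite sites. That such a change of the lead happens again and again is shown by
bounding from below, uniformly in the history, the probability that one side gets ahead while
the edges at the origin stay far below the maximum, by a superharmonic function built from the
Ray-Knight recursion for the numbers of outward crossings.
-/

set_option autoImplicit false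

open MeasureTheory

namespace Pool.Agent.Results.MP_00be1d_pr.FourFavorite

/-- The walk with steps `X`, started at `0`. -/
def walk (X : ℕ → ℤ) (n : ℕ) : ℤ := ∑ k ∈ Finset.range n, X k

/-- The upcrossing local time at `x` up to time `n`: the number of times `1 ≤ k ≤ n` with
`s (k - 1) = x` and `s k = x + 1`. -/
def xiU (s : ℕ → ℤ) (x : ℤ) (n : ℕ) : ℕ :=
  ((Finset.Icc 1 n).filter (fun k => s (k - 1) = x ∧ s k = x + 1)).card

/-- The downcrossing local time at `x` up to time `n`: the number of times `1 ≤ k ≤ n` with
`s (k - 1) = x` and `s k = x - 1`. -/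
def xiD (s : ℕ → ℤ) (x : ℤ) (n : ℕ) : ℕ :=
  ((Finset.Icc 1 n).filter (fun k => s (k - 1) = x ∧ s k = x - 1)).card

/-- The maximum of the two. -/
def xiStar (s : ℕ → ℤ) (x : ℤ) (n : ℕ) : ℕ := max (xiU s x n) (xiD s x n)

/-- The set of favorite one-side sites at time `n`. -/
def favorite (s : ℕ → ℤ) (n : ℕ) : Set ℤ := {x | ∀ y, xiStar s y n ≤ xiStar s x n}

/-- `X` is a sequence of independent random variables that are `1` or `-1` with probability `1/2`
each. -/
structure IsFairSteps {Ω : Type*} {_ : MeasurableSpace Ω} (P : Measure Ω) (X : ℕ → Ω → ℤ) :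
    Prop where
  prob : IsProbabilityMeasure P
  meas : ∀ n, Measurable (X n)
  indep : ProbabilityTheory.iIndepFun X P
  plus : ∀ n, P {ω | X n ω = 1} = 1 / 2
  minus : ∀ n, P {ω | X n ω = -1} = 1 / 2

open R766.FV

theorem count_succ (q : ℕ → Prop) [DecidablePred q] (n : ℕ) :
    ((Finset.Icc 1 (n + 1)).filter q).card =
      ((Finset.Icc 1 n).filter q).card + if q (n + 1) then 1 else 0 := by
  rw [← Finset.insert_Icc_right_eq_Icc_add_one (by omega : 1 ≤ n + 1), Finset.filter_insert]
  split_ifs with h1
  · rw [Finset.card_insert_of_notMem]
    simp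
  · rfl

section

variable {x : ℕ → ℤ} {β : ℕ → Bool}

theorem S_eq (hpm : ∀ n, x n = 1 ∨ x n = -1) (hβ : ∀ n, β n = decide (x n = 1)) (n : ℕ) :
    S (hl β n) = walk x n := by
  induction n with
  | zero => simp [hl, S, walk]
  | succ n ih =>
    show S (β n :: hl β n) = _
    rw [S_cons, ih, hβ n]
    unfold walk
    rw [Finset.sum_range_succ]
    rcases hpm n with h1 | h1 <;> simp [h1]

theorem up_eq (hpm : ∀ n, x n = 1 ∨ x n = -1) (hβ : ∀ n, β n = decide (x n = 1)) (y : ℤ)
    (n : ℕ) : up (hl β n) y = xiU (walk x) y n := by
  induction n with
  | zero => simp [hl, up, xiU]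
  | succ n ih =>
    show up (β n :: hl β n) y = _
    unfold xiU
    rw [up_cons, ih, count_succ, S_eq hpm hβ n, hβ n, Nat.add_sub_cancel]
    unfold xiU
    congr 1
    have h2 : walk x (n + 1) = walk x n + x n := by unfold walk; rw [Finset.sum_range_succ]
    have : (decide (x n = 1) = true ∧ walk x n = y) ↔
        (walk x n = y ∧ walk x (n + 1) = y + 1) := by
      rw [h2]
      constructor
      · rintro ⟨h3, h4⟩
        have h5 : x n = 1 := by simpa using h3
        exact ⟨h4, by omega⟩
      · rintro ⟨h3, h4⟩
        have h5 : x n = 1 := by omega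
        exact ⟨by simpa using h5, h3⟩
    simp only [this]

theorem dn_eq (hpm : ∀ n, x n = 1 ∨ x n = -1) (hβ : ∀ n, β n = decide (x n = 1)) (y : ℤ)
    (n : ℕ) : dn (hl β n) (y - 1) = xiD (walk x) y n := by
  induction n with
  | zero => simp [hl, dn, xiD]
  | succ n ih =>
    show dn (β n :: hl β n) (y - 1) = _
    unfold xiD
    rw [dn_cons, ih, count_succ, S_eq hpm hβ n, hβ n, Nat.add_sub_cancel]
    unfold xiD
    congr 1
    have h2 : walk x (n + 1) = walk x n + x n := by unfold walk; rw [Finset.sum_range_succ]
    have : (decide (x n = 1) = false ∧ walk x n = y - 1 + 1) ↔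
        (walk x n = y ∧ walk x (n + 1) = y - 1) := by
      rw [h2]
      constructor
      · rintro ⟨h3, h4⟩
        have h5 : x n ≠ 1 := by simpa using h3
        have h6 := (hpm n).resolve_left h5
        exact ⟨by omega, by omega⟩
      · rintro ⟨h3, h4⟩
        have h5 : x n ≠ 1 := by omega
        exact ⟨by simpa using h5, by omega⟩
    simp only [this]

theorem favorite_eq (hpm : ∀ n, x n = 1 ∨ x n = -1) (hβ : ∀ n, β n = decide (x n = 1)) (n : ℕ) :
    favorite (walk x) n = Kd (hl β n) := by
  rw [← Kd_eq]
  have e : ∀ y, xiStar (walk x) y n = R766.FV.xiD (hl β n) y := by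
    intro y
    unfold xiStar R766.FV.xiD
    rw [up_eq hpm hβ, dn_eq hpm hβ]
  unfold favorite
  simp only [e]

end

/-- **Almost surely there are at least four favorite one-side sites at infinitely many times.**
(`Set.ncard` of an infinite set is `0`, so `4 ≤ ncard` includes that the set is finite.) -/
theorem result.{w} : ∀ (Ω : Type w) (m : MeasurableSpace Ω) (P : @Measure Ω m) (X : ℕ → Ω → ℤ),
    @IsFairSteps Ω m P X →
      ∀ᵐ ω ∂P, {n : ℕ | 1 ≤ n ∧ 4 ≤ (favorite (walk (fun k => X k ω)) n).ncard}.Infinite := by
  intro Ω m P X hX
  have hX' : IsSteps P X := ⟨hX.prob, hX.meas, hX.indep, hX.plus, hX.minus⟩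
  filter_upwards [ae_pm hX', never_null hX' G4 W_G4] with ω h1 h2
  rw [Set.infinite_iff_exists_gt]
  intro N
  obtain ⟨k, hk⟩ := h2 (N + 1)
  refine ⟨N + 1 + k, ⟨by omega, ?_⟩, by omega⟩
  rw [favorite_eq (x := fun k => X k ω) (β := sg X ω) h1 (fun n => rfl)]
  exact hk

end Pool.Agent.Results.MP_00be1d_pr.FourFavorite
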